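import Pool.Agent.T2H61.OT.T_ABS
import Pool.Agent.T2H61.OT.T_RES
import Pool.Agent.T2H61.OT.T_APP
import Pool.Agent.T2H61.OT.T_PM
import Pool.Agent.T2H61.OT.T_MIX
import Pool.Agent.T2H61.OT.T_LOC
import Pool.Agent.T2H61.OT.T_WIN
import Pool.Agent.T2H61.OT.T_FG
import Pool.Agent.T2H61.OT.T_HC
import Pool.Agent.T2H61.OT.T_ML
import Pool.Agent.T2H61.OT.T_ZC
import Pool.Agent.T2H61.OT.T_UD
import Pool.Agent.T2H61.OT.T_LT
import Pool.Agent.T2H61.OT.T_SEG
import Pool.Agent.T2H61.OT.T_AD1
import Pool.Agent.T2H61.OT.T_AD2
import Pool.Agent.T2H61.OT.T_MSN
import Pool.Agent.T2H61.OT.T_ESC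
import Pool.Agent.T2H61.OT.T_COV
import Pool.Agent.T2H61.OT.T_GF
import Pool.Agent.T2H61.OT.T_ZG
import Pool.Agent.T2H61.OT.T_NUM
import Pool.Agent.T2H61.OT.T_WL1
import Pool.Agent.T2H61.OT.T_WL2
import Pool.Agent.T2H61.OT.T_MC
import Pool.Agent.T2H61.OT.T_TXT
import Pool.Agent.T2H61.OT.T_FIN
import Pool.Agent.T2H61.OT.T_FREG
import Pool.Agent.T2H61.OT.T_FLRN
import Pool.Agent.T2H61.OT.T_TLOC
import Pool.Agent.T2H61.OT.T_TSIM
import Pool.Agent.T2H61.OT.T_TLRN
import Pool.Agent.T2H61.OT.T_TCRD

/-!
# One additional work-tape is not sufficient (negative answer to MP_e130ca_lc)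

The definitions (convolution, automatic families, texts, learnability, Turing machines with a base
tape and one additional work-tape, linear-time learners) are in `Pool.Agent.T2H61.OT.Model`.

Family: the languages `{0,1}^n` (index `none^n`) and `{0,1}^n` minus one word `x` (index `x`),
for all `n ≥ 1`.

Idea of the proof.  Fix a large `n`, let `W = {0,1}^n`, `N = |W| = 2^n`, and divide the work-tape
into blocks of `(c+1)(n+1)` cells, so that a cycle changes only three adjacent blocks.

* Perfect memory: two finite input sequences that lead to the same configuration have the same set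
  of words, because otherwise both could be continued by all other words.
* The text: in a first phase the words of a set `S` are shown. Afterwards the word shown depends
  only on the block position modulo `K` and on the number of earlier visits of this block
  (a fixed table `F` with a constant number of entries), except that far outside, at the first
  visit of certain blocks, the words outside a set `D` are inserted; here `D ⊆ S`, so the text
  contains all words.
* For a good table, every time window in which an interval of `K` blocks is visited often contains
  many entrances into the interval: otherwise the information on the words shown there would have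
  to be lost, and there would be an alternative text, with another set `S` or another set `D` and
  with the same messages across a cut of the tape, for which the lost word matters. Averaging over
  all intervals, the head visits every block at most `K^2` times.
* Hence only a constant number of messages of `O(n)` bits crosses a cut of the tape between the
  region where `S` has been shown and the region where the complement of `D` is shown. By a
  unique disjointness argument there are texts with the same messages and sets `S`, `D` such that
  `D \ S` consists of one word `e`; for the corresponding mixed text of `{0,1}^n` minus `e` the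
  learner converges to `{0,1}^n`.
-/

namespace Pool.Agent.Results.MP_e130ca_lc.OneWorkTapeInsufficient

open Pool.Agent.T2H61.OT

/-- There is a learnable automatic family which no linear-time learner with one additional
work-tape learns. -/
theorem result :
    ∃ Fam : AutomaticFamily (Option Bool) Bool, Fam.I = famI ∧ Fam.L = famL ∧
      Learnable Fam ∧ TellTale Fam ∧
      ∀ (m : Machine (Option Bool) Bool) (c a : ℕ), ¬ m.LinearTimeLearns c a Fam := by
  have hWL1 := pWL1 pAD1 pAD2 (pSEG pAPP)
  have hWIN := pWIN pLOC pAPP
  have hWL2 := pWL2 pAPP pPM (pMIX pAPP) hWIN pAD1 pAD2 (pSEG pAPP)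
  have hMSN := pMSN pAPP pAD1
  have hMC := pMC pLT hMSN pAD1 hWL1 hWL2
  have hTXT := pTXT pAPP (pMIX pAPP) pAD1 pAD2 (pCOV pAD1 pAD2)
  have hFIN := pFIN (pESC pAD1) pAD1 hMSN pML hTXT pUD
  have hABS := pABS (pGF pFG pHC) (pZG pZC pHC pML pAD2) pNUM hMC hFIN
  exact pRES hABS (pTLRN (pTSIM pTLOC)) pTCRD pFREG pFLRN

end Pool.Agent.Results.MP_e130ca_lc.OneWorkTapeInsufficient
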